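import Pool.Agent.Run7.h929.G3.Rat4

/-!
# The dichotomy of the strong conjecture of Lang and Silverman for almost all Jacobians of genus
two over the rational numbers with a rational Weierstrass point, uniformly in all quadratic twists
-/

set_option autoImplicit false

namespace Pool.Agent.Results.MP_f5471b_nt.GenusTwoAlmostAll

open Polynomial NumberField Filter Topology

/-- The affine coordinate ring `K[x, Y] / (Y² - g(x))` of the curve `Y² = g(x)`. -/
def CoordRing {K : Type} [Field K] (g : K[X]) : Type := QuadraticAlgebra K[X] g 0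

noncomputable instance {K : Type} [Field K] (g : K[X]) : CommRing (CoordRing g) :=
  QuadraticAlgebra.instCommRing

/-- The function on the curve given by a polynomial in `x`. -/
noncomputable def ofPoly {K : Type} [Field K] (g : K[X]) (u : K[X]) : CoordRing g :=
  (⟨u, 0⟩ : QuadraticAlgebra K[X] g 0)

/-- The function `Y` on the curve. -/
noncomputable def fnY {K : Type} [Field K] (g : K[X]) : CoordRing g :=
  (⟨0, 1⟩ : QuadraticAlgebra K[X] g 0)

/-- The ideal `(u, Y - V)` of the coordinate ring. -/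
noncomputable def divisor {K : Type} [Field K] (g : K[X]) (p : K[X] × K[X]) :
    Ideal (CoordRing g) :=
  Ideal.span {ofPoly g p.1, fnY g - ofPoly g p.2}

/-- Two ideals lie in the same ideal class. -/
def SameClass {B : Type} [CommRing B] (I J : Ideal B) : Prop :=
  ∃ x y : B, x ≠ 0 ∧ y ≠ 0 ∧ Ideal.span {x} * I = Ideal.span {y} * J

/-- The pairs `(u, V)` of Mumford, which are the `K`-rational points of the Jacobian of the curve
`Y² = g(x)`, if `g` has degree five and no multiple root. -/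
structure IsPoint {K : Type} [Field K] (g : K[X]) (p : K[X] × K[X]) : Prop where
  monic : p.1.Monic
  natDegree_le : p.1.natDegree ≤ 2
  degree_lt : p.2.degree < p.1.degree
  dvd : p.1 ∣ g - p.2 ^ 2

/-- The multiple `m p` of the point `p` is zero. -/
def Vanishes {K : Type} [Field K] (g : K[X]) (p : K[X] × K[X]) (m : ℕ) : Prop :=
  SameClass (divisor g p ^ m) ⊤

/-- `q` is the one pair of Mumford in the class of `m` times the point `p`. -/
structure IsMultiple {K : Type} [Field K] (g : K[X]) (p : K[X] × K[X]) (m : ℕ)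
    (q : K[X] × K[X]) : Prop where
  point : IsPoint g q
  same : SameClass (divisor g q) (divisor g p ^ m)
  unique : ∀ q', IsPoint g q' → SameClass (divisor g q') (divisor g p ^ m) → q' = q

/-- The fourth coordinate on the Kummer surface, for a pair of degree two. -/
noncomputable def fourth {K : Type} [Field K] (g : K[X]) (d : K) (s q V₁ : K) : K :=
  (V₁ ^ 2 - g.coeff 2 - g.coeff 3 * s - g.coeff 4 * s ^ 2) / d - s * (s ^ 2 - q)

/-- The coordinates on the Kummer surface in `ℙ³` (the sections of `2Θ`) of a point of the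
Jacobian of `Y² = g(x)`, where `d` is the leading coefficient of `g`. -/
noncomputable def kummer {K : Type} [Field K] (g : K[X]) (d : K) (p : K[X] × K[X]) : Fin 4 → K :=
  if p.1.natDegree = 2 then
    ![1, -p.1.coeff 1, p.1.coeff 0, fourth g d (-p.1.coeff 1) (p.1.coeff 0) (p.2.coeff 1)]
  else if p.1.natDegree = 1 then ![0, 1, -p.1.coeff 0, p.1.coeff 0 ^ 2]
  else ![0, 0, 0, 1]

/-- `h` is the canonical height of the point `p`, the limit of `4⁻ⁿ h(κ(2ⁿ p))`. -/
def IsCanonicalHeight {K : Type} [Field K] [NumberField K] (g : K[X]) (d : K) (p : K[X] × K[X])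
    (h : ℝ) : Prop :=
  ∃ P : ℕ → K[X] × K[X], (∀ n, IsMultiple g p (2 ^ n) (P n)) ∧
    Tendsto (fun n => Height.logHeight (kummer g d (P n)) / 4 ^ n) atTop (𝓝 h)

/-- The box of all `(a₀, …, a₄)` with `|aᵢ| ≤ B^(5-i)`. -/
noncomputable def box (B : ℕ) : Finset (Fin 5 → ℤ) :=
  Fintype.piFinset fun i : Fin 5 => Finset.Icc (-(B : ℤ) ^ (5 - (i : ℕ))) ((B : ℤ) ^ (5 - (i : ℕ)))

/-- The quintic `f = x⁵ + a₄ x⁴ + a₃ x³ + a₂ x² + a₁ x + a₀`. -/
noncomputable def quintic (a : Fin 5 → ℤ) : ℚ[X] :=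
  X ^ 5 + C (a 4 : ℚ) * X ^ 4 + C (a 3 : ℚ) * X ^ 3 + C (a 2 : ℚ) * X ^ 2 + C (a 1 : ℚ) * X +
    C (a 0 : ℚ)

/-- The right hand side of `Y² = d f(x)`; with `Y = d y` this is the curve `d y² = f(x)`. -/
noncomputable def curve (a : Fin 5 → ℤ) (d : ℤ) : ℚ[X] := C (d : ℚ) * quintic a

/-- The dichotomy for the rational points `p` of the Jacobians of all quadratic twists of
`y² = f(x)`: either `24 p = 0`, or `p` has infinite order and the canonical height of `p` is at
least `c (log B + log |d|)`. -/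
def Dichotomy (c : ℝ) (B : ℕ) (a : Fin 5 → ℤ) : Prop :=
  Squarefree (quintic a) ∧ ∀ d : ℤ, Squarefree d → ∀ p : ℚ[X] × ℚ[X], IsPoint (curve a d) p →
    Vanishes (curve a d) p 24 ∨ ((∀ m : ℕ, 1 ≤ m → ¬ Vanishes (curve a d) p m) ∧
      ∃ h : ℝ, IsCanonicalHeight (curve a d) d p h ∧ c * (Real.log B + Real.log |(d : ℝ)|) ≤ h)

theorem canon {K : Type} [Field K] [NumberField K] {a : Fin 5 → K} {d : K} {g : K[X]}
    (hg : Run7.h929.G2.rhs a d = g) (hd : d ≠ 0) {p : K[X] × K[X]} {c : ℝ}
    (h : Run7.h929.G3.Lim a d p.1 p.2 c) : IsCanonicalHeight g d p c := by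
  subst hg
  have hcf : ∀ i : Fin 5, (Run7.h929.G2.rhs a d).coeff i = d * a i := by
    intro i
    rw [Run7.h929.G2.rhs, coeff_C_mul, Run7.h929.G2.coeff_quin]
  obtain ⟨P, hPM, hPS, hu, hc⟩ := h
  have hk : ∀ n, Run7.h929.G2.kc a d (P n).1 (P n).2 =
      kummer (Run7.h929.G2.rhs a d) d (P n) := by
    intro n
    have e2 : (Run7.h929.G2.rhs a d).coeff 2 = d * a 2 := hcf 2
    have e3 : (Run7.h929.G2.rhs a d).coeff 3 = d * a 3 := hcf 3
    have e4 : (Run7.h929.G2.rhs a d).coeff 4 = d * a 4 := hcf 4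
    rw [kummer, fourth, Run7.h929.G2.kc, Run7.h929.G2.gg, e2, e3, e4]
    have : ∀ s q V : K, V ^ 2 / d - (a 2 + a 3 * s + a 4 * s ^ 2 + s * (s ^ 2 - q)) =
        (V ^ 2 - d * a 2 - d * a 3 * s - d * a 4 * s ^ 2) / d - s * (s ^ 2 - q) := by
      intro s q V
      field_simp
      ring
    rw [this]
  refine ⟨P, fun n => ⟨⟨(hPM n).1, (hPM n).2, (hPM n).3, (hPM n).4⟩, hPS n, ?_⟩, ?_⟩
  · intro p' hp' hs'
    exact hu n p'.1 p'.2 ⟨hp'.1, hp'.2, hp'.3, hp'.4⟩ hs'
  · simp only [hk] at hc
    exact hc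

theorem mum_of {K : Type} [Field K] {g : K[X]} {p : K[X] × K[X]} (h : IsPoint g p) :
    Run7.h929.G2.Mum g p.1 p.2 := ⟨h.1, h.2, h.3, h.4⟩

theorem van {K : Type} [Field K] {g g' : K[X]} (h : g = g') {p : K[X] × K[X]} {m : ℕ}
    (hv : Vanishes g' p m) : Run7.h929.G2.Same (Run7.h929.G2.MI g p.1 p.2 ^ m) ⊤ := by
  subst h
  exact hv

theorem quintic_squarefree {a : Fin 5 → ℤ} (hdis : Run7.h929.G2.dis a ≠ 0) :
    Squarefree (quintic a) := by
  have h1 : Run7.h929.G2.dis (fun i => (a i : ℚ)) = ((Run7.h929.G2.dis a : ℤ) : ℚ) :=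
    (Run7.h929.G2.map_dis (Int.castRingHom ℚ) a).symm
  have h2 : Run7.h929.G2.dis (fun i => (a i : ℚ)) ≠ 0 := by
    rw [h1]
    exact_mod_cast hdis
  exact (Run7.h929.G2.quin_separable (by norm_num) h2).squarefree

theorem curve_eq (a : Fin 5 → ℤ) (d : ℤ) :
    Run7.h929.G2.rhs (fun i => (a i : ℚ)) (d : ℚ) = curve a d := by
  rw [Run7.h929.G2.rhs, curve, Run7.h929.G2.quin, quintic]

theorem main : ∃ c : ℝ, 0 < c ∧ Tendsto (fun B : ℕ =>
    ({a | a ∈ box B ∧ Dichotomy c B a}.ncard : ℝ) / (box B).card) atTop (𝓝 1) := by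
  obtain ⟨c, hc, hlim⟩ := Run7.h929.G3.rat_main
  refine ⟨c, hc, ?_⟩
  have hle : ∀ B : ℕ, ({a | a ∈ Run7.h929.G3.Box B ∧ Run7.h929.G3.Fine c B a}.ncard : ℝ) /
      (Run7.h929.G3.Box B).card ≤ ({a | a ∈ box B ∧ Dichotomy c B a}.ncard : ℝ) / (box B).card := by
    intro B
    have hb : Run7.h929.G3.Box B = box B := rfl
    rw [hb]
    apply div_le_div_of_nonneg_right _ (Nat.cast_nonneg _)
    have h1 : {a | a ∈ box B ∧ Run7.h929.G3.Fine c B a} ⊆ {a | a ∈ box B ∧ Dichotomy c B a} := by
      rintro a ⟨ha, hfine⟩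
      refine ⟨ha, ?_⟩
      obtain ⟨hdis, hfine⟩ := hfine
      refine ⟨quintic_squarefree hdis, fun d hd p hp => ?_⟩
      by_cases h24 : Vanishes (curve a d) p 24
      · exact Or.inl h24
      right
      obtain ⟨h, h1, h2, h3⟩ := hfine d hd p.1 p.2 (by
        rw [curve_eq]
        exact mum_of hp) (by
        rw [curve_eq]
        exact h24)
      exact ⟨fun m hm hv => h3 m hm (van (curve_eq a d) hv), h,
        canon (curve_eq a d) (by exact_mod_cast hd.ne_zero) h1, h2⟩
    exact_mod_cast Set.ncard_le_ncard h1 ((box B).finite_toSet.subset fun a ha => ha.1)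
  have hone : ∀ B : ℕ, ({a | a ∈ box B ∧ Dichotomy c B a}.ncard : ℝ) / (box B).card ≤ 1 := by
    intro B
    apply div_le_one_of_le₀ _ (Nat.cast_nonneg _)
    have h4 : {a | a ∈ box B ∧ Dichotomy c B a}.ncard ≤ (box B).card := by
      rw [← Set.ncard_coe_finset]
      exact Set.ncard_le_ncard (fun a ha => ha.1) (box B).finite_toSet
    exact_mod_cast h4
  exact tendsto_of_tendsto_of_tendsto_of_le_of_le hlim tendsto_const_nhds hle hone

/-- The dichotomy of the strong conjecture of Lang and Silverman for almost all Jacobians of genus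
two over `ℚ` with a rational Weierstrass point, uniformly in all quadratic twists: there is `c > 0`
such that the proportion of the integral monic quintics `f` in the box of size `B` for which every
rational point `p` on the Jacobian of every twist `d y² = f(x)`, `d` squarefree, either has
`24 p = 0` or has infinite order and canonical height at least `c (log B + log |d|)` tends to
one. -/
theorem result : ∃ c : ℝ, 0 < c ∧ Tendsto (fun B : ℕ =>
    ({a | a ∈ box B ∧ Dichotomy c B a}.ncard : ℝ) / (box B).card) atTop (𝓝 1) :=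
  main

end Pool.Agent.Results.MP_f5471b_nt.GenusTwoAlmostAll
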