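import Mathlib
import Pool.Agent.Run7.h795.RV.Res
import Pool.Agent.Run7.h823.WF.Ex
import Pool.Agent.N365.LS.G

/-!
# The strong Lang-Silverman alternative along sparse families of vectors of residues, for instance the first `m ^ ε` terms
# of linear recurrences modulo `m`

Let `J = A / D` be a rational function over `ℚ` in `r` variables, for example the `j`-invariant of an elliptic curve over
`ℚ(t₁, …, t_r)`, whose reductions modulo the primes have many poles in the mean (`MeanPoles`); this is so for the universal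
family `y² = x³ + t₁ x + t₂`. For all `β`, `ε > 0` there are constants `c₁ > 0` and `c₂` such that for all large `q` and all finite
families `y_i`, `i ∈ t`, of vectors of `r` residues modulo `q` with Fourier coefficients at most `q ^ (-β) |t|`
(`Flat`) the following holds for all but `ε |t|` of the integral vectors `v = c₀ + y_i` (least residues, `c₀` any integral
vector with entries at most `q ^ B`): at `j = J(v)`, for all elliptic curves `E` of invariant `j` over all number fields `K` of
degree at most `d`, for all forms `A` over `K` of `E ^ g`, all polarizations of `A` and all `P` in `A(K)`, either `P` has order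
at most `c₂` modulo a proper abelian subvariety of degree at most `c₂` times that of `A`, or the canonical height of `P` is at
least `c₁` times the height of `A`. In particular torsion is bounded.

The family can be very sparse. Examples, with `β = β(ε, …) > 0`:

* the values `(u_1(n), …, u_r(n))`, `n < N`, of `r` linear recurrences modulo a prime `m` with linearly independent vectors of
  coefficients, as soon as `N ≥ m ^ ε` and the roots and their quotients have orders `≥ m ^ ε`;
* the vectors `(x_1 b_1 ^ n, …, x_r b_r ^ n)`, `n < N`, `N ≥ m ^ ε`, for fixed different integers `b_j ≥ 2` and all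
  `x_j ≠ 0`, modulo all but `C X ^ ε` of the primes `m ≤ X`.

In these examples only `m ^ ε` of the `m ^ r` vectors of the box occur. In the starting file `ThinSequences` the vectors are
the integer parts of generalised polynomials.

`E : y² = x³ + a x + b` is an elliptic curve of invariant `j` with `a`, `b` integral of height at most `κ (1 + h(j))`.
A finite Galois extension `L` of `K` and a faithful representation `ρ` of its group by integral matrices of size `g` define
an abelian variety `A` over `K`, the form of `E ^ g` with `A(K) = {P ∈ E(L) ^ g | ρ(σ) σ(P) = P for all σ}`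
(`FixedPt ρ P`); for `g = 1` these are `E` and all its quadratic twists.  A symmetric positive definite integral matrix `M`
with `ρ(σ)ᵀ M ρ(σ) = M` (`Polar ρ M`) is a polarization of `A` over `K`; the corresponding absolute canonical height is
`chatM M P / [L : ℚ]`.

`SubvarLe c ρ M P` is the first alternative: the columns of the primitive integral matrix `β` of size `g × m`, `m < g`, span a
sublattice stable under `ρ`, and so define an abelian subvariety `B` over `K` of dimension `m`, its degree for the
polarization is at most `c` times that of `A`, and `n P` is in `B` for some positive `n ≤ c`.  `Pts L a b` is the group of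
points over `L`, `sht P` the height of the `x`-coordinate, `chat P` the canonical height (`ChatLim`: the limit of
`4⁻ⁿ sht (2ⁿ P)`), `RamPrimes K T` says that for each prime `v` in `T` there is `σ ≠ 1` in the inertia group, `logNorms T` is
the sum of `log N v`, `v ∈ T`, and `absH` is the absolute logarithmic height.

Proof. Families with small Fourier coefficients are well distributed modulo all integers up to a power of `q` (the transfer
of helper823, `Pool.Agent.Run7.h823.WF`; the Fourier coefficients of short recurrences are estimated by the method of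
Bourgain, Glibichuk and Konyagin). By Turan's sieve all but the proportion `ε` of the `v` have a prime divisor of `D(v)`
which is at least a power of `q` and does not divide `A(v)`. This prime is in the denominator of `j`, whose height is
`O(log q)`, and this is enough for the alternative (`Pool.Agent.N365.LS.strong_enough`).
-/

set_option autoImplicit false

namespace Pool.Agent.Results.MP_f5471b_nt.ResidueVectors

open Pool.Agent.TH910.LS Pool.Agent.Y725.LS NumberField IsDedekindDomain MvPolynomial

/-- the alternative, with the constants `c₁` and `c₂`, for all forms of dimension `g` of the powers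
of the curve `y² = x³ + a x + b` over `K` that are split by `L` -/
def Alternative (c₁ : ℝ) (c₂ g : ℕ) {K : Type} [Field K] [NumberField K] (a b : 𝓞 K) (L : Type)
    [Field L] [NumberField L] [Algebra K L] [DecidableEq L] : Prop :=
  ∀ (ρ : (L ≃ₐ[K] L) →* Matrix (Fin g) (Fin g) ℤ) (M : Matrix (Fin g) (Fin g) ℤ)
    (P : Fin g → Pts L a b) (T : Finset (HeightOneSpectrum (𝓞 L))),
    Faithful ρ → Polar ρ M → FixedPt ρ P → RamPrimes K T →
      SubvarLe c₂ ρ M P ∨
      (¬ IsOfFinAddOrder P ∧
        c₁ * (1 + absH (jinv (a : K) b) + logNorms T / Module.finrank ℚ L) ≤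
          chatM M P / Module.finrank ℚ L)

/-- the alternative, with constants `c₁` and `c₂`, holds for all elliptic curves of invariant `j` over
all number fields of degree at most `d`, given by an integral equation `y² = x³ + a x + b` whose
coefficients have height at most `κ (1 + h(j))`, and for all forms of dimension `g` of their
powers -/
def HoldsAt (c₁ : ℝ) (c₂ d g : ℕ) (κ : ℝ) (j : ℚ) : Prop :=
  ∀ (K : Type) [Field K] [NumberField K], Module.finrank ℚ K ≤ d →
    ∀ a b : 𝓞 K, 4 * (a : K) ^ 3 + 27 * (b : K) ^ 2 ≠ 0 →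
      absH (a : K) + absH (b : K) ≤ κ * (1 + absH (jinv (a : K) b)) → jinv (a : K) b = (j : K) →
      ∀ (L : Type) [Field L] [NumberField L] [Algebra K L] [IsGalois K L] [DecidableEq L],
        ChatLim L a b ∧ Alternative c₁ c₂ g a b L

/-- the sum over the primes `y < p ≤ x` of the proportion of the vectors modulo `p` that are zeros of
`D` but not of `A` is at least `δ (log log x - log log y) - C` -/
def MeanPoles {r : ℕ} (A D : MvPolynomial (Fin r) ℤ) : Prop :=
  ∃ δ C : ℝ, 0 < δ ∧ ∀ y x : ℕ, 3 ≤ y → y ≤ x →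
    δ * (Real.log (Real.log x) - Real.log (Real.log y)) - C ≤
      ∑ p ∈ (Finset.Ioc y x).filter Nat.Prime,
        ({ρ : Fin r → ZMod p | aeval ρ D = 0 ∧ aeval ρ A ≠ 0}.ncard : ℝ) / (p : ℝ) ^ r

/-- The Fourier coefficients of the vectors of residues `y i`, `i ∈ s`, modulo `q` at the nonzero frequencies are at most
`η` times the number of the vectors: `|∑ i ∈ s, e(h·y_i / q)| ≤ η |s|` for all vectors `h ≠ 0` modulo `q`. -/
def Flat {τ ι : Type} [Fintype ι] (q : ℕ) [NeZero q] (η : ℝ) (s : Finset τ) (y : τ → ι → ZMod q) : Prop :=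
  ∀ h : ι → ZMod q, h ≠ 0 → ‖∑ i ∈ s, (ZMod.stdAddChar (∑ j, h j * y i j) : ℂ)‖ ≤ η * s.card

/-- The integral vector `c₀ + y_i`, with the least residues `0 ≤ y_i < q`. -/
def vec {τ ι : Type} {q : ℕ} (y : τ → ι → ZMod q) (c₀ : ι → ℤ) (i : τ) (j : ι) : ℤ := c₀ j + ((y i j).val : ℕ)

/-- `v` is not a pole of `A / D` and the alternative holds at `(A / D) (v)` -/
def Holds (c₁ : ℝ) (c₂ d g : ℕ) (κ : ℝ) {r : ℕ} (A D : MvPolynomial (Fin r) ℤ) (v : Fin r → ℤ) :
    Prop :=
  eval v D ≠ 0 ∧ HoldsAt c₁ c₂ d g κ ((eval v A : ℤ) / (eval v D : ℤ))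

/-- **Theorem.** (1) The strong Lang-Silverman alternative, with constants `c₁ > 0`, `c₂`, holds for all elliptic curves of invariant
`(A / D)(v)` over number fields of degree at most `d` and all forms of their `g`-th powers, for all but `ε |t|` of the members
`v = c₀ + y_i` of every family of vectors of residues modulo `q ≥ q₀` with Fourier coefficients at most `q ^ (-β) |t|`.
(2) Examples of families: short linear recurrences. (3) Examples of families: the first powers of fixed integers, modulo all
but `C X ^ ε` of the primes `m ≤ X`. (4) The invariant `6912 t₁³ / (4 t₁³ + 27 t₂²)` of the universal family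
`y² = x³ + t₁ x + t₂` has many poles in the mean. (5) Every `j ≠ 0, 1728` is the invariant of a curve with small
coefficients, as assumed in `HoldsAt`, with a `κ` depending only on `d`. -/
theorem result :
    (∀ (r : ℕ) (A D : MvPolynomial (Fin r) ℤ), D ≠ 0 → MeanPoles A D →
      ∀ (d g B : ℕ) (κ β ε : ℝ), 0 < g → 0 ≤ κ → 0 < β → 0 < ε → ∃ (c₁ : ℝ) (c₂ q₀ : ℕ), 0 < c₁ ∧
      ∀ (q : ℕ) [NeZero q], q₀ ≤ q → ∀ (τ : Type) (t : Finset τ) (y : τ → Fin r → ZMod q),
        Flat q ((q : ℝ) ^ (-β)) t y → ∀ c₀ : Fin r → ℤ, (∀ j, |(c₀ j : ℝ)| ≤ (q : ℝ) ^ B) →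
        ({i : τ | i ∈ t ∧ ¬ Holds c₁ c₂ d g κ A D (vec y c₀ i)}.ncard : ℝ) ≤ ε * t.card) ∧
    (∀ (k : ℕ) (ε : ℝ), 0 < ε → ∃ β : ℝ, 0 < β ∧ ∃ m₀ : ℕ, ∀ (m : ℕ) [Fact m.Prime], m₀ ≤ m →
      ∀ (ι : Type) [Fintype ι] (c : ι → Fin k → ZMod m) (g : Fin k → (ZMod m)ˣ) (N : ℕ), LinearIndependent (ZMod m) c →
      (∀ i, (m : ℝ) ^ ε ≤ orderOf (g i)) → (∀ i j, i ≠ j → (m : ℝ) ^ ε ≤ orderOf (g i / g j)) → (m : ℝ) ^ ε ≤ N →
      Flat m ((m : ℝ) ^ (-β)) (Finset.range N) (fun n j => ∑ i, c j i * (g i : ZMod m) ^ n)) ∧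
    (∀ (ι : Type) [Fintype ι] (ε : ℝ), 0 < ε → ∃ β : ℝ, 0 < β ∧ ∀ b : ι → ℕ, (∀ j, 2 ≤ b j) → Function.Injective b →
      ∃ C : ℝ, ∀ X : ℕ, 1 ≤ X → ∀ Q : Finset ℕ,
      (∀ m ∈ Q, m ≤ X ∧ ∃ _ : Fact m.Prime, ¬ ∀ N : ℕ, (m : ℝ) ^ ε ≤ N → ∀ x : ι → ZMod m, (∀ j, x j ≠ 0) →
        Flat m ((m : ℝ) ^ (-β)) (Finset.range N) (fun n j => x j * (b j : ZMod m) ^ n)) →
      (Q.card : ℝ) ≤ C * (X : ℝ) ^ ε) ∧
    MeanPoles (C 6912 * X 0 ^ 3 : MvPolynomial (Fin 2) ℤ) (C 4 * X 0 ^ 3 + C 27 * X 1 ^ 2) ∧
    (∀ d : ℕ, ∃ κ : ℝ, 0 ≤ κ ∧ ∀ (K : Type) [Field K] [NumberField K],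
      Module.finrank ℚ K ≤ d → ∀ j : K, j ≠ 0 → j ≠ 1728 → ∃ a b : 𝓞 K,
        4 * (a : K) ^ 3 + 27 * (b : K) ^ 2 ≠ 0 ∧ jinv (a : K) b = j ∧
        absH (a : K) + absH (b : K) ≤ κ * (1 + absH j)) := by
  refine ⟨fun r A D hD hM d g B κ β ε hg hκ hβ hε => ?_, fun k ε hε => Pool.Agent.Run7.h823.WF.flat_rec' k hε,
    fun ι _ ε hε => Pool.Agent.Run7.h823.WF.flat_pow' ι hε, Run7.h795.RV.mean_wei,
    Pool.Agent.Y728.AK.exists_model⟩
  obtain ⟨σ, hσ, q₀, hq₀⟩ := Run7.h795.RV.residues hD hM hβ (B + 2) (by omega) ε hε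
  obtain ⟨c₁, hc₁, c₂, h1⟩ := Pool.Agent.N365.LS.strong_enough d g hg κ σ hκ hσ
  have key : ∀ v : Fin r → ℤ, Run7.h795.RV.Big σ (eval v A) (eval v D) →
      Holds c₁ c₂ d g κ A D v := by
    rintro v ⟨h2, p, hp, h3, h4, H, h5, h6, h7, h8⟩
    refine ⟨h2, h1 _ _ ⟨h2, {p}, ?_, H, h5, h6, h7, ?_, ?_⟩⟩
    · intro q hq
      rw [Finset.mem_singleton] at hq
      subst hq
      exact ⟨hp, h3, h4⟩
    · intro h0
      exact h4 (h0 ▸ dvd_zero _)
    · rw [Finset.prod_singleton]
      exact h8
  refine ⟨c₁, c₂, q₀ + 2, hc₁, fun q _ hq τ t y hf c₀ hc₀ => ?_⟩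
  exact (Run7.h795.RV.ncard_mono fun i _ hn hb => hn (key _ hb)).trans (hq₀ τ q (by omega) t y c₀ hf
    fun i _ j => Run7.h795.RV.size (by omega) c₀ hc₀ (y i) j)

end Pool.Agent.Results.MP_f5471b_nt.ResidueVectors
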